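import Pool.Agent.Q260.SL.Stm
import Pool.Agent.H370R2.Digamma

set_option autoImplicit false

/-!
# No zeros of the derivatives of zeta far to the left
-/

namespace Pool.Agent.Q95.SL

open Complex Filter Topology Metric Set
open Pool.Agent.Q260.SL

namespace FL

/-- the comparison function -/
noncomputable def Lg (z : ℂ) : ℂ := log (z + 5 / 2)

theorem Zk_zero (z : ℂ) : Zk 0 z = riemannZeta (1 / 2 - z) := by
  simp [Zk]

theorem Zk_succ (k : ℕ) : Zk (k + 1) = deriv (Zk k) := by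
  unfold Zk
  exact iteratedDeriv_succ

theorem Zk_an (k : ℕ) {z : ℂ} (hz : 0 < z.im) : AnalyticAt ℂ (Zk k) z := by
  induction k with
  | zero =>
    have h0 : Zk 0 = fun w : ℂ => riemannZeta (1 / 2 - w) := funext Zk_zero
    rw [h0]
    have h1 : DifferentiableOn ℂ (fun w : ℂ => riemannZeta (1 / 2 - w)) {w | 0 < w.im} := by
      intro w hw
      have hw' : (1 / 2 - w : ℂ) ≠ 1 := by
        intro h
        have := congrArg Complex.im h
        simp at this
        have hw2 : 0 < w.im := hw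
        linarith
      have h2 := (differentiableAt_riemannZeta hw').comp w
        (f := fun w : ℂ => (1 / 2 - w : ℂ)) (by fun_prop)
      exact h2.differentiableWithinAt
    exact h1.analyticAt ((isOpen_lt continuous_const Complex.continuous_im).mem_nhds hz)
  | succ k ih =>
    rw [Zk_succ]
    exact ih.deriv

theorem Zk_deriv (k : ℕ) {z : ℂ} (hz : 0 < z.im) : HasDerivAt (Zk k) (Zk (k + 1) z) z := by
  rw [Zk_succ]
  exact (Zk_an k hz).differentiableAt.hasDerivAt

theorem ld_congr {f g : ℂ → ℂ} {z : ℂ} (h : f =ᶠ[𝓝 z] g) : logDeriv f z = logDeriv g z := by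
  rw [logDeriv_apply, logDeriv_apply, h.deriv_eq, h.eq_of_nhds]

/-- the logarithmic derivative of zeta is bounded to the right of `5/4` -/
theorem zeta_ld : ∃ K : ℝ, ∀ s : ℂ, 5 / 4 ≤ s.re → ‖logDeriv riemannZeta s‖ ≤ K := by
  let f : ℕ → ℂ := fun n => ((ArithmeticFunction.vonMangoldt n : ℝ) : ℂ)
  refine ⟨∑' n : ℕ, ‖LSeries.term f ((5 / 4 : ℝ) : ℂ) n‖, ?_⟩
  intro s hs
  have h1 : 1 < s.re := by linarith
  have e : logDeriv riemannZeta s = - LSeries f s := by
    rw [ArithmeticFunction.LSeries_vonMangoldt_eq_deriv_riemannZeta_div h1, logDeriv_apply]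
    ring
  rw [e, norm_neg]
  have hsum : Summable fun n : ℕ => ‖LSeries.term f ((5 / 4 : ℝ) : ℂ) n‖ := by
    have : LSeriesSummable f ((5 / 4 : ℝ) : ℂ) :=
      ArithmeticFunction.LSeriesSummable_vonMangoldt (by simp; norm_num)
    exact this.norm
  refine tsum_of_norm_bounded hsum.hasSum fun n => ?_
  exact LSeries.norm_term_le_of_re_le_re f (by simpa using hs) n

/-- the logarithmic derivative of the gamma function -/
theorem gamma_ld : ∃ K : ℝ, ∀ z : ℂ, 3 / 4 < z.re → 1 < z.im →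
    ‖logDeriv Gamma (1 / 2 + z) - Lg z‖ ≤ K := by
  refine ⟨2 + ∑' n : ℕ, 1 / ((n : ℝ) + 1) ^ 2, ?_⟩
  intro z h1 h2
  have hre : 0 < (1 / 2 + z : ℂ).re := by simp; linarith
  rw [H370.DG.logDeriv_Gamma' hre]
  have e : (1 / 2 + z + 2 : ℂ) = z + 5 / 2 := by ring
  have e2 : log (1 / 2 + z + 2) - 1 / (1 / 2 + z) - 1 / (1 / 2 + z + 1) +
      ∑' n, H370.DG.er n (1 / 2 + z) - Lg z = - (1 / (1 / 2 + z)) - 1 / (1 / 2 + z + 1) +
      ∑' n, H370.DG.er n (1 / 2 + z) := by
    rw [Lg, e]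
    ring
  rw [e2]
  have n1 : ‖1 / (1 / 2 + z : ℂ)‖ ≤ 1 := by
    have : 1 ≤ ‖(1 / 2 + z : ℂ)‖ := by
      refine le_trans ?_ (Complex.abs_re_le_norm _)
      rw [abs_of_pos hre]
      simp
      linarith
    rw [norm_div, norm_one]
    exact div_le_one_of_le₀ this (norm_nonneg _)
  have n2 : ‖1 / (1 / 2 + z + 1 : ℂ)‖ ≤ 1 := by
    have hre' : 0 < (1 / 2 + z + 1 : ℂ).re := by simp; linarith
    have : 1 ≤ ‖(1 / 2 + z + 1 : ℂ)‖ := by
      refine le_trans ?_ (Complex.abs_re_le_norm _)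
      rw [abs_of_pos hre']
      simp
      linarith
    rw [norm_div, norm_one]
    exact div_le_one_of_le₀ this (norm_nonneg _)
  refine (norm_add_le _ _).trans (add_le_add ?_ (H370.DG.norm_tsum_er hre))
  refine (norm_sub_le _ _).trans ?_
  rw [norm_neg]
  linarith

/-- bounds for cosine and sine -/
theorem cos_sin {w : ℂ} (hw : 1 ≤ w.im) : cos w ≠ 0 ∧ ‖sin w / cos w‖ ≤ 3 := by
  have e1 : ‖cexp (w * I)‖ = Real.exp (-w.im) := by
    rw [Complex.norm_exp]
    simp
  have e2 : ‖cexp (-w * I)‖ = Real.exp w.im := by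
    rw [Complex.norm_exp]
    simp
  have h1 : Real.exp (-w.im) ≤ 1 / 2 := by
    have h3 : Real.exp (-w.im) ≤ Real.exp (-1) := Real.exp_le_exp.2 (by linarith)
    have h4 : Real.exp (-1) ≤ 1 / 2 := by
      rw [Real.exp_neg]
      have : (2 : ℝ) ≤ Real.exp 1 := by linarith [Real.add_one_le_exp (1 : ℝ)]
      rw [inv_eq_one_div]
      exact one_div_le_one_div_of_le (by norm_num) this
    linarith
  have h2 : 2 ≤ Real.exp w.im := by
    have h3 : Real.exp 1 ≤ Real.exp w.im := Real.exp_le_exp.2 hw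
    linarith [Real.add_one_le_exp (1 : ℝ)]
  have hc : (Real.exp w.im - 1 / 2) / 2 ≤ ‖cos w‖ := by
    have : cos w = (cexp (w * I) + cexp (-w * I)) / 2 := rfl
    rw [this, norm_div]
    have h5 : ‖cexp (-w * I)‖ - ‖cexp (w * I)‖ ≤ ‖cexp (w * I) + cexp (-w * I)‖ := by
      have := norm_sub_norm_le (cexp (-w * I)) (-cexp (w * I))
      rw [norm_neg, sub_neg_eq_add, add_comm (cexp (-w * I))] at this
      exact this
    rw [e1, e2] at h5
    have : ‖(2 : ℂ)‖ = 2 := by simp
    rw [this]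
    linarith
  have hs : ‖sin w‖ ≤ (Real.exp w.im + 1 / 2) / 2 := by
    have : sin w = (cexp (-w * I) - cexp (w * I)) * I / 2 := rfl
    rw [this, norm_div, norm_mul, norm_I, mul_one]
    have h5 := norm_sub_le (cexp (-w * I)) (cexp (w * I))
    rw [e1, e2] at h5
    have : ‖(2 : ℂ)‖ = 2 := by simp
    rw [this]
    linarith
  have hpos : 0 < ‖cos w‖ := by linarith
  refine ⟨norm_pos_iff.1 hpos, ?_⟩
  rw [norm_div, div_le_iff₀ hpos]
  linarith

/-- the logarithmic derivative of the zeta function to the left -/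
theorem base : ∃ K : ℝ, ∀ z : ℂ, 3 / 4 < z.re → 1 < z.im →
    Zk 0 z ≠ 0 ∧ ‖logDeriv (Zk 0) z - Lg z‖ ≤ K := by
  obtain ⟨K1, hK1⟩ := zeta_ld
  obtain ⟨K2, hK2⟩ := gamma_ld
  refine ⟨Real.log (2 * Real.pi) + K2 + 6 + K1, ?_⟩
  intro z h1 h2
  -- the four factors
  let f1 : ℂ → ℂ := fun w => 2 * (2 * (Real.pi : ℂ)) ^ (-(1 / 2 + w))
  let f2 : ℂ → ℂ := fun w => Gamma (1 / 2 + w)
  let f3 : ℂ → ℂ := fun w => cos (Real.pi * (1 / 2 + w) / 2)
  let f4 : ℂ → ℂ := fun w => riemannZeta (1 / 2 + w)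
  have hopen : IsOpen {w : ℂ | 3 / 4 < w.re ∧ 1 < w.im} :=
    (isOpen_lt continuous_const Complex.continuous_re).inter
      (isOpen_lt continuous_const Complex.continuous_im)
  have hfe : ∀ w : ℂ, 3 / 4 < w.re → 1 < w.im → Zk 0 w = f1 w * f2 w * f3 w * f4 w := by
    intro w hw1 hw2
    rw [Zk_zero]
    have e : (1 / 2 - w : ℂ) = 1 - (1 / 2 + w) := by ring
    rw [e, riemannZeta_one_sub]
    · intro n h
      have := congrArg Complex.im h
      simp at this
      linarith
    · intro h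
      have := congrArg Complex.im h
      simp at this
      linarith
  have hev : Zk 0 =ᶠ[𝓝 z] fun w => f1 w * f2 w * f3 w * f4 w := by
    filter_upwards [hopen.mem_nhds ⟨h1, h2⟩] with w hw
    exact hfe w hw.1 hw.2
  have h2pi : (2 * (Real.pi : ℂ)) ≠ 0 := by
    simp [Real.pi_ne_zero]
  have hre : 0 < (1 / 2 + z : ℂ).re := by simp; linarith
  have him : 1 < (1 / 2 + z : ℂ).im := by simpa using h2
  have hin : HasDerivAt (fun w : ℂ => 1 / 2 + w) 1 z := (hasDerivAt_id z).const_add _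
  -- f1
  have d1 : HasDerivAt f1 (f1 z * (-(Real.log (2 * Real.pi) : ℂ))) z := by
    have h3 : HasDerivAt (fun w : ℂ => -(1 / 2 + w)) (-1) z := hin.neg
    have h4 := (h3.const_cpow (c := (2 * (Real.pi : ℂ))) (Or.inl h2pi)).const_mul (2 : ℂ)
    refine h4.congr_deriv ?_
    have : log (2 * (Real.pi : ℂ)) = (Real.log (2 * Real.pi) : ℂ) := by
      rw [Complex.ofReal_log (by positivity)]
      push_cast
      rfl
    rw [this]
    simp only [f1]
    ring
  have n1 : f1 z ≠ 0 := by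
    simp only [f1]
    refine mul_ne_zero two_ne_zero ?_
    rw [Complex.cpow_def_of_ne_zero h2pi]
    exact Complex.exp_ne_zero _
  -- f2
  have hG : ∀ m : ℕ, (1 / 2 + z : ℂ) ≠ -m := by
    intro m h
    have := congrArg Complex.im h
    simp at this
    linarith
  have n2 : f2 z ≠ 0 := Complex.Gamma_ne_zero hG
  have d2 : HasDerivAt f2 (deriv Gamma (1 / 2 + z)) z := by
    have h3 := (Complex.differentiableAt_Gamma _ hG).hasDerivAt
    have h4 := HasDerivAt.comp z h3 hin
    rw [mul_one] at h4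
    exact h4
  have l2 : logDeriv f2 z = logDeriv Gamma (1 / 2 + z) := by
    rw [logDeriv_apply, logDeriv_apply, d2.deriv]
  -- f3
  have hw3 : 1 ≤ ((Real.pi : ℂ) * (1 / 2 + z) / 2).im := by
    have e : ((Real.pi : ℂ) * (1 / 2 + z) / 2) = ((Real.pi / 2 : ℝ) : ℂ) * (1 / 2 + z) := by
      push_cast
      ring
    rw [e, Complex.im_ofReal_mul]
    have h3 := Real.pi_gt_three
    nlinarith
  have d3 : HasDerivAt f3 (-sin ((Real.pi : ℂ) * (1 / 2 + z) / 2) * (Real.pi / 2)) z := by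
    have h3 : HasDerivAt (fun w : ℂ => (Real.pi : ℂ) * (1 / 2 + w) / 2) ((Real.pi : ℂ) / 2) z := by
      have := (hin.const_mul (Real.pi : ℂ)).div_const 2
      rw [mul_one] at this
      exact this
    exact HasDerivAt.comp z (Complex.hasDerivAt_cos _) h3
  have n3 : f3 z ≠ 0 := (cos_sin hw3).1
  -- f4
  have hz1 : (1 / 2 + z : ℂ) ≠ 1 := by
    intro h
    have := congrArg Complex.im h
    simp at this
    linarith
  have n4 : f4 z ≠ 0 := riemannZeta_ne_zero_of_one_le_re (by simp; linarith)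
  have d4 : HasDerivAt f4 (deriv riemannZeta (1 / 2 + z)) z := by
    have h3 := (differentiableAt_riemannZeta hz1).hasDerivAt
    have h4 := HasDerivAt.comp z h3 hin
    rw [mul_one] at h4
    exact h4
  have l4 : logDeriv f4 z = logDeriv riemannZeta (1 / 2 + z) := by
    rw [logDeriv_apply, logDeriv_apply, d4.deriv]
  -- total
  have hl : logDeriv (Zk 0) z = logDeriv f1 z + logDeriv f2 z + logDeriv f3 z + logDeriv f4 z := by
    rw [ld_congr hev]
    have a1 := logDeriv_mul (f := fun w => f1 w * f2 w * f3 w) (g := f4) z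
      (mul_ne_zero (mul_ne_zero n1 n2) n3) n4
      ((d1.differentiableAt.mul d2.differentiableAt).mul d3.differentiableAt) d4.differentiableAt
    have a2 := logDeriv_mul (f := fun w => f1 w * f2 w) (g := f3) z (mul_ne_zero n1 n2) n3
      (d1.differentiableAt.mul d2.differentiableAt) d3.differentiableAt
    have a3 := logDeriv_mul (f := f1) (g := f2) z n1 n2 d1.differentiableAt d2.differentiableAt
    rw [a1, a2, a3]
  refine ⟨?_, ?_⟩
  · rw [hfe z h1 h2]
    exact mul_ne_zero (mul_ne_zero (mul_ne_zero n1 n2) n3) n4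
  have b1 : ‖logDeriv f1 z‖ ≤ Real.log (2 * Real.pi) := by
    rw [logDeriv_apply, d1.deriv, mul_div_cancel_left₀ _ n1, norm_neg, Complex.norm_real,
      Real.norm_eq_abs, abs_of_nonneg]
    exact Real.log_nonneg (by linarith [Real.pi_gt_three])
  have b3 : ‖logDeriv f3 z‖ ≤ 6 := by
    rw [logDeriv_apply, d3.deriv]
    have e : -sin ((Real.pi : ℂ) * (1 / 2 + z) / 2) * (Real.pi / 2) / f3 z =
        -(sin ((Real.pi : ℂ) * (1 / 2 + z) / 2) / cos ((Real.pi : ℂ) * (1 / 2 + z) / 2)) *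
          ((Real.pi / 2 : ℝ) : ℂ) := by
      simp only [f3]
      push_cast
      ring
    rw [e, norm_mul, norm_neg, Complex.norm_real, Real.norm_eq_abs,
      abs_of_pos (by linarith [Real.pi_pos])]
    have h5 := (cos_sin hw3).2
    have h6 := Real.pi_le_four
    have h7 := Real.pi_pos
    nlinarith [norm_nonneg (sin ((Real.pi : ℂ) * (1 / 2 + z) / 2) /
      cos ((Real.pi : ℂ) * (1 / 2 + z) / 2))]
  have b4 : ‖logDeriv f4 z‖ ≤ K1 := by
    rw [l4]
    exact hK1 _ (by simp; linarith)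
  have b2 := hK2 z h1 h2
  have e : logDeriv (Zk 0) z - Lg z = logDeriv f1 z + (logDeriv Gamma (1 / 2 + z) - Lg z) +
      logDeriv f3 z + logDeriv f4 z := by
    rw [hl, l2]
    ring
  rw [e]
  refine (norm_add_le _ _).trans (add_le_add ?_ b4)
  refine (norm_add_le _ _).trans (add_le_add ?_ b3)
  exact (norm_add_le _ _).trans (add_le_add b1 b2)

/-- the abscissas -/
noncomputable def ab (k : ℕ) : ℝ := 1 - 1 / (4 * ((k : ℝ) + 1))

theorem ab_lt (k : ℕ) : ab k < ab (k + 1) := by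
  unfold ab
  have h1 : (0 : ℝ) < 4 * ((k : ℝ) + 1) := by positivity
  have h2 : 4 * ((k : ℝ) + 1) < 4 * (((k + 1 : ℕ) : ℝ) + 1) := by
    push_cast
    linarith
  have := one_div_lt_one_div_of_lt h1 h2
  linarith

theorem ab_pos (k : ℕ) : 3 / 4 ≤ ab k := by
  unfold ab
  have : 1 / (4 * ((k : ℝ) + 1)) ≤ 1 / 4 := by
    refine one_div_le_one_div_of_le (by norm_num) ?_
    have : (0 : ℝ) ≤ k := Nat.cast_nonneg _
    linarith
  linarith

theorem ab_le (k : ℕ) : ab k < 1 := by
  unfold ab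
  have : 0 < 1 / (4 * ((k : ℝ) + 1)) := by positivity
  linarith

theorem Lg_deriv {z : ℂ} (hz : 3 / 4 ≤ z.re) : HasDerivAt Lg (z + 5 / 2)⁻¹ z := by
  have h1 : HasDerivAt (fun w : ℂ => w + 5 / 2) 1 z := (hasDerivAt_id z).add_const _
  have h2 : (z + 5 / 2 : ℂ) ∈ slitPlane := by
    left
    simp
    linarith
  have h3 := (Complex.hasDerivAt_log h2).comp z h1
  rw [mul_one] at h3
  exact h3

theorem step (k : ℕ) (h : ∃ C T : ℝ, 3 ≤ T ∧ ∀ z : ℂ, ab k < z.re → T < z.im →
    Zk k z ≠ 0 ∧ ‖logDeriv (Zk k) z - Lg z‖ ≤ C) :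
    ∃ C T : ℝ, 3 ≤ T ∧ ∀ z : ℂ, ab (k + 1) < z.re → T < z.im →
    Zk (k + 1) z ≠ 0 ∧ ‖logDeriv (Zk (k + 1)) z - Lg z‖ ≤ C := by
  obtain ⟨C, T, hT, h⟩ := h
  set r : ℝ := (ab (k + 1) - ab k) / 2 with hr
  have hr0 : 0 < r := by
    have := ab_lt k
    rw [hr]
    linarith
  have hr1 : r ≤ 1 := by
    have h1 := ab_le (k + 1)
    have h2 := ab_pos k
    rw [hr]
    linarith
  refine ⟨C + (C / r + 1), T + 1 + Real.exp (C + 1), by
    have := Real.exp_pos (C + 1)
    linarith, ?_⟩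
  intro z hz1 hz2
  have hE := Real.exp_pos (C + 1)
  have hk := ab_pos k
  have hk1 := ab_lt k
  have hz3 : ab k < z.re := by linarith
  have hz4 : T < z.im := by linarith
  have hz0 : 0 < z.im := by linarith
  set q : ℂ → ℂ := logDeriv (Zk k) with hq
  -- differentiability of q in the region
  have hqd : ∀ w : ℂ, ab k < w.re → T < w.im → DifferentiableAt ℂ q w := by
    intro w hw1 hw2
    have hw0 : 0 < w.im := by linarith
    have h1 := (Zk_an k hw0).deriv.differentiableAt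
    have h2 := (Zk_an k hw0).differentiableAt
    exact h1.div h2 (h w hw1 hw2).1
  have hball : ∀ w ∈ closedBall z r, ab k < w.re ∧ T < w.im := by
    intro w hw
    rw [mem_closedBall, dist_eq_norm] at hw
    have h1 := (Complex.abs_re_le_norm (w - z)).trans hw
    have h2 := (Complex.abs_im_le_norm (w - z)).trans hw
    rw [Complex.sub_re, abs_le] at h1
    rw [Complex.sub_im, abs_le] at h2
    constructor
    · have : r < ab (k + 1) - ab k := by rw [hr]; linarith
      linarith [h1.1]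
    · linarith [h2.1]
  have hC0 : 0 ≤ C := (norm_nonneg _).trans (h z hz3 hz4).2
  -- derivative of q - Lg
  have hdq : ‖deriv (fun w => q w - Lg w) z‖ ≤ C / r := by
    refine Complex.norm_deriv_le_of_forall_mem_sphere_norm_le hr0 ?_ ?_
    · apply DifferentiableOn.diffContOnCl
      rw [closure_ball z hr0.ne']
      intro w hw
      obtain ⟨hw1, hw2⟩ := hball w hw
      exact ((hqd w hw1 hw2).sub (Lg_deriv (by linarith)).differentiableAt).differentiableWithinAt
    · intro w hw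
      obtain ⟨hw1, hw2⟩ := hball w (sphere_subset_closedBall hw)
      exact (h w hw1 hw2).2
  have hLd := Lg_deriv (z := z) (by linarith)
  have hqz := hqd z hz3 hz4
  have e1 : deriv (fun w => q w - Lg w) z = deriv q z - (z + 5 / 2)⁻¹ := by
    rw [deriv_fun_sub hqz hLd.differentiableAt, hLd.deriv]
  have hinv : ‖(z + 5 / 2 : ℂ)⁻¹‖ ≤ 1 := by
    rw [norm_inv]
    apply inv_le_one_of_one_le₀
    refine le_trans ?_ (Complex.abs_im_le_norm _)
    have : (z + 5 / 2 : ℂ).im = z.im := by simp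
    rw [this, abs_of_pos hz0]
    linarith
  have hdq2 : ‖deriv q z‖ ≤ C / r + 1 := by
    have : deriv q z = (deriv q z - (z + 5 / 2)⁻¹) + (z + 5 / 2)⁻¹ := by ring
    rw [this]
    refine (norm_add_le _ _).trans (add_le_add ?_ hinv)
    rw [← e1]
    exact hdq
  -- lower bound for q
  have hLg : C + 1 ≤ ‖Lg z‖ := by
    refine le_trans ?_ (Complex.re_le_norm _)
    unfold Lg
    rw [Complex.log_re]
    have h1 : Real.exp (C + 1) ≤ ‖(z + 5 / 2 : ℂ)‖ := by
      refine le_trans ?_ (Complex.abs_im_le_norm _)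
      have : (z + 5 / 2 : ℂ).im = z.im := by simp
      rw [this, abs_of_pos hz0]
      linarith
    have h2 := Real.log_le_log hE h1
    rw [Real.log_exp] at h2
    exact h2
  have hq1 : 1 ≤ ‖q z‖ := by
    have h1 := (h z hz3 hz4).2
    have h2 : ‖Lg z‖ - ‖q z‖ ≤ ‖q z - Lg z‖ := by
      rw [norm_sub_rev]
      exact norm_sub_norm_le _ _
    linarith
  have hq0 : q z ≠ 0 := by
    intro h0
    rw [h0, norm_zero] at hq1
    linarith
  have hZ := (h z hz3 hz4).1
  -- the equation near z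
  have hopen : IsOpen {w : ℂ | ab k < w.re ∧ T < w.im} :=
    (isOpen_lt continuous_const Complex.continuous_re).inter
      (isOpen_lt continuous_const Complex.continuous_im)
  have hev : Zk (k + 1) =ᶠ[𝓝 z] fun w => Zk k w * q w := by
    filter_upwards [hopen.mem_nhds ⟨hz3, hz4⟩] with w hw
    rw [hq, logDeriv_apply, Zk_succ, mul_div_cancel₀ _ (h w hw.1 hw.2).1]
  have hl : logDeriv (Zk (k + 1)) z = q z + logDeriv q z := by
    rw [ld_congr hev, logDeriv_mul z hZ hq0 (Zk_an k hz0).differentiableAt hqz]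
  refine ⟨?_, ?_⟩
  · rw [hev.eq_of_nhds]
    exact mul_ne_zero hZ hq0
  · have e : logDeriv (Zk (k + 1)) z - Lg z = (q z - Lg z) + logDeriv q z := by
      rw [hl]
      ring
    rw [e]
    refine (norm_add_le _ _).trans (add_le_add (h z hz3 hz4).2 ?_)
    rw [logDeriv_apply, norm_div]
    refine (div_le_of_le_mul₀ (norm_nonneg _) (by positivity) ?_)
    have h0 : 0 ≤ C / r + 1 := by positivity
    nlinarith

theorem all (k : ℕ) : ∃ C T : ℝ, 3 ≤ T ∧ ∀ z : ℂ, ab k < z.re → T < z.im →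
    Zk k z ≠ 0 ∧ ‖logDeriv (Zk k) z - Lg z‖ ≤ C := by
  induction k with
  | zero =>
    obtain ⟨K, hK⟩ := base
    refine ⟨K, 3, le_rfl, ?_⟩
    intro z h1 h2
    refine hK z ?_ (by linarith)
    have : ab 0 = 3 / 4 := by
      unfold ab
      norm_num
    rw [this] at h1
    exact h1
  | succ k ih => exact step k ih

end FL

/-- JOB FL -/
theorem t_FL : S_FL := by
  intro k
  obtain ⟨C, T, hT, h⟩ := FL.all k
  refine ⟨T + 1, by linarith, ?_⟩
  intro z h1 h2
  exact (h z (by linarith [FL.ab_le k]) (by linarith)).1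

end Pool.Agent.Q95.SL
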